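import Pool.Agent.V5helper40.FR.Defs

/-!
# MP_fad775_nt: job T1 (helper91)
-/

set_option autoImplicit false

open UpperHalfPlane hiding I
open Real Complex Filter Topology Derivative EisensteinSeries ModularForm MatrixGroups Function CuspForm
open scoped Manifold MatrixGroups ModularForm

namespace Pool.Agent.V5helper91.FR

open Pool.Agent.R322.QD
open Pool.Agent.V5helper40.FR (eulerProd JobT1)

/-! ### Ramanujan -/

lemma th2' : th e2 = (12⁻¹ : ℂ) • (e2 * e2 - e4) := by
  have h : D (E2 : ℍ → ℂ) = (12⁻¹ : ℂ) • (E2 * E2 - (E₄ : ℍ → ℂ)) := by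
    funext z
    have := Pool.Agent.Y949.J.ram2 z
    simp only [Pi.smul_apply, Pi.sub_apply, Pi.mul_apply, smul_eq_mul]
    rw [this]
    ring
  have h1 := qExpansion_D good_E2
  rw [h, UpperHalfPlane.qExpansion_smul ((good_E2.mul good_E2).sub good_E4).an,
    UpperHalfPlane.qExpansion_sub (good_E2.mul good_E2).an good_E4.an,
    UpperHalfPlane.qExpansion_mul good_E2.an good_E2.an] at h1
  exact h1.symm

lemma nC (n : ℕ) : PowerSeries.C (n : ℂ) = (n : PowerSeries ℂ) := by
  simp

lemma r2 : 12 * th e2 = e2 ^ 2 - e4 := by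
  rw [th2', two_smul_eq]
  have h : (12 : PowerSeries ℂ) = PowerSeries.C (12 : ℂ) := (map_ofNat _ 12).symm
  rw [h, ← mul_assoc, ← map_mul]
  norm_num
  ring

lemma r4 : 3 * th e4 = e2 * e4 - e6 := by
  rw [th4, two_smul_eq]
  have h : (3 : PowerSeries ℂ) = PowerSeries.C (3 : ℂ) := (map_ofNat _ 3).symm
  rw [h, ← mul_assoc, ← map_mul]
  norm_num

lemma r6 : 2 * th e6 = e2 * e6 - e4 ^ 2 := by
  rw [th6, two_smul_eq]
  have h : (2 : PowerSeries ℂ) = PowerSeries.C (2 : ℂ) := (map_ofNat _ 2).symm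
  rw [h, ← mul_assoc, ← map_mul]
  norm_num
  ring

/-! ### The eta product -/

/-- partial products -/
noncomputable def PP (N : ℕ) : PowerSeries ℂ :=
  ∏ j ∈ Finset.range N, (1 - (PowerSeries.X : PowerSeries ℂ) ^ (j + 1))

/-- `1 / (1 - X^m)` -/
noncomputable def gm (m : ℕ) : PowerSeries ℂ := PowerSeries.mk fun n => if m ∣ n then 1 else 0

lemma gm_mul (m : ℕ) (hm : 0 < m) : gm m * (1 - (PowerSeries.X : PowerSeries ℂ) ^ m) = 1 := by
  rw [mul_sub, mul_one]
  ext n
  rw [map_sub, PowerSeries.coeff_mul_X_pow', PowerSeries.coeff_one]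
  unfold gm
  rw [PowerSeries.coeff_mk, PowerSeries.coeff_mk]
  by_cases hn : n = 0
  · subst hn
    rw [if_pos (dvd_zero m), if_neg (by omega), if_pos rfl, sub_zero]
  · rw [if_neg hn]
    by_cases h1 : m ≤ n
    · rw [if_pos h1]
      have h2 : m ∣ n - m ↔ m ∣ n := by
        constructor
        · intro h
          have := Nat.dvd_add h (dvd_refl m)
          rwa [Nat.sub_add_cancel h1] at this
        · intro h
          exact Nat.dvd_sub h (dvd_refl m)
      simp only [h2, sub_self]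
    · rw [if_neg h1, if_neg (fun h => h1 (Nat.le_of_dvd (Nat.pos_of_ne_zero hn) h)), sub_zero]

/-- the logarithmic derivatives -/
noncomputable def LL (N : ℕ) : PowerSeries ℂ :=
  ∑ j ∈ Finset.range N, -(((j + 1 : ℕ) : PowerSeries ℂ) * (PowerSeries.X ^ (j + 1) * gm (j + 1)))

lemma th_fac (m : ℕ) : th (1 - (PowerSeries.X : PowerSeries ℂ) ^ m) =
    -((m : PowerSeries ℂ) * PowerSeries.X ^ m) := by
  ext n
  rw [coeff_th, map_sub, PowerSeries.coeff_one, PowerSeries.coeff_X_pow, map_neg, ← nC,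
    PowerSeries.coeff_C_mul, PowerSeries.coeff_X_pow]
  by_cases h : n = m
  · subst h
    by_cases h0 : n = 0
    · simp [h0]
    · simp [h0]
  · by_cases h0 : n = 0
    · simp [h0]
      intro h1
      exact h1.symm
    · simp [h, h0]

lemma th_PP (N : ℕ) : th (PP N) = LL N * PP N := by
  induction N with
  | zero =>
    unfold PP LL
    ext n
    simp [coeff_th, PowerSeries.coeff_one]
  | succ N ih =>
    have h1 : PP (N + 1) = PP N * (1 - (PowerSeries.X : PowerSeries ℂ) ^ (N + 1)) := by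
      unfold PP
      rw [Finset.prod_range_succ]
    have h2 : LL (N + 1) = LL N +
        -(((N + 1 : ℕ) : PowerSeries ℂ) * (PowerSeries.X ^ (N + 1) * gm (N + 1))) := by
      unfold LL
      rw [Finset.sum_range_succ]
    rw [h1, h2, th_mul, ih, th_fac]
    have h3 := gm_mul (N + 1) (Nat.succ_pos N)
    linear_combination (-(((N + 1 : ℕ) : PowerSeries ℂ)) * PowerSeries.X ^ (N + 1) * PP N) *
      (-1 : PowerSeries ℂ) * h3

lemma coeff_LL (N n : ℕ) (h : n ≤ N) : (LL N).coeff n = -(ArithmeticFunction.sigma 1 n : ℂ) := by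
  unfold LL
  rw [map_sum]
  have h1 : ∀ j ∈ Finset.range N, (PowerSeries.coeff n)
      (-(((j + 1 : ℕ) : PowerSeries ℂ) * (PowerSeries.X ^ (j + 1) * gm (j + 1)))) =
      -(if j + 1 ∣ n ∧ n ≠ 0 then ((j + 1 : ℕ) : ℂ) else 0) := by
    intro j _
    rw [map_neg, ← nC, PowerSeries.coeff_C_mul, PowerSeries.coeff_X_pow_mul']
    unfold gm
    rw [PowerSeries.coeff_mk]
    congr 1
    by_cases h2 : j + 1 ≤ n
    · rw [if_pos h2]
      have h3 : j + 1 ∣ n - (j + 1) ↔ j + 1 ∣ n := by
        constructor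
        · intro h
          have := Nat.dvd_add h (dvd_refl (j + 1))
          rwa [Nat.sub_add_cancel h2] at this
        · intro h
          exact Nat.dvd_sub h (dvd_refl _)
      by_cases h4 : j + 1 ∣ n
      · rw [if_pos (h3.2 h4), if_pos ⟨h4, by omega⟩, mul_one]
      · rw [if_neg (fun h => h4 (h3.1 h)), if_neg (fun h => h4 h.1), mul_zero]
    · rw [if_neg h2, mul_zero, if_neg]
      rintro ⟨h3, h4⟩
      exact h2 (Nat.le_of_dvd (Nat.pos_of_ne_zero h4) h3)
  rw [Finset.sum_congr rfl h1, Finset.sum_neg_distrib]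
  congr 1
  rw [ArithmeticFunction.sigma_one_apply, Nat.divisors, ← Finset.sum_filter]
  push_cast
  symm
  by_cases hn : n = 0
  · subst hn; simp
  refine Finset.sum_bij' (fun d _ => d - 1) (fun j _ => j + 1) ?_ ?_ ?_ ?_ ?_
  · intro d hd
    simp only [Finset.mem_filter, Finset.mem_Ico, Finset.mem_range] at hd ⊢
    have : d - 1 + 1 = d := by omega
    rw [this]
    exact ⟨by omega, hd.2, hn⟩
  · intro j hj
    simp only [Finset.mem_filter, Finset.mem_Ico, Finset.mem_range] at hj ⊢
    have := Nat.le_of_dvd (Nat.pos_of_ne_zero hn) hj.2.1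
    exact ⟨by omega, hj.2.1⟩
  · intro d hd
    simp only [Finset.mem_filter, Finset.mem_Ico] at hd
    omega
  · intro j hj
    simp
  · intro d hd
    simp only [Finset.mem_filter, Finset.mem_Ico] at hd
    have : d - 1 + 1 = d := by omega
    exact_mod_cast this.symm

lemma coeff_PP_stable (n N : ℕ) (h : n ≤ N) : (PP N).coeff n = (PP n).coeff n := by
  induction N, h using Nat.le_induction with
  | base => rfl
  | succ N hN ih =>
    have h1 : PP (N + 1) = PP N - PP N * (PowerSeries.X : PowerSeries ℂ) ^ (N + 1) := by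
      unfold PP
      rw [Finset.prod_range_succ]
      ring
    rw [h1, map_sub, PowerSeries.coeff_mul_X_pow', if_neg (by omega), sub_zero, ih]

lemma coeff_euler (n : ℕ) : (eulerProd ℂ).coeff n = (PP n).coeff n := by
  unfold eulerProd PP
  rw [PowerSeries.coeff_mk]

lemma r_eta : 24 * th (eulerProd ℂ) = (e2 - 1) * eulerProd ℂ := by
  have h24 : (24 : PowerSeries ℂ) = PowerSeries.C (24 : ℂ) := (map_ofNat _ 24).symm
  ext n
  rw [h24, PowerSeries.coeff_C_mul, coeff_th, PowerSeries.coeff_mul]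
  have h1 := congrArg (PowerSeries.coeff n) (th_PP n)
  rw [coeff_th, PowerSeries.coeff_mul] at h1
  rw [coeff_euler, h1, Finset.mul_sum]
  refine Finset.sum_congr rfl fun p hp => ?_
  have hp' := Finset.HasAntidiagonal.mem_antidiagonal.1 hp
  rw [coeff_LL n p.1 (by omega), coeff_euler, coeff_PP_stable p.2 n (by omega), map_sub, coeff_e2,
    PowerSeries.coeff_one]
  by_cases h0 : p.1 = 0
  · simp [h0]
  · simp [h0]
    ring

theorem t1 : JobT1 := ⟨r_eta, r2, r4, r6⟩

end Pool.Agent.V5helper91.FR
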