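import Pool.Agent.V5helper91.FR.MF7

/-!
# MP_fad775_nt: job T2, the identities of weight 8 on `Γ₀(7)` (helper91)
-/

set_option autoImplicit false

open UpperHalfPlane hiding I
open Complex Filter Topology EisensteinSeries ModularForm MatrixGroups Function CongruenceSubgroup
open scoped Manifold MatrixGroups ModularForm

namespace Pool.Agent.V5helper91.FR

open Pool.Agent.R322.QD
open Pool.Agent.V5helper40.FR (subq Th2 Y0 Y1 Y2 JobT2)

/-- a modular form with its expansion -/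
structure Bd (k : ℤ) (f : ℍ → ℂ) (p : PowerSeries ℂ) : Prop where
  mf : MF k f
  hp : HP f p

lemma Bd.mul {k l : ℤ} {f g : ℍ → ℂ} {p r : PowerSeries ℂ} (hf : Bd k f p) (hg : Bd l g r) :
    Bd (k + l) (f * g) (p * r) := ⟨hf.mf.mul hg.mf, hf.hp.mul hg.hp⟩

lemma Bd.add {k : ℤ} {f g : ℍ → ℂ} {p r : PowerSeries ℂ} (hf : Bd k f p) (hg : Bd k g r) :
    Bd k (f + g) (p + r) := ⟨hf.mf.add hg.mf, hf.hp.add hg.hp⟩

lemma Bd.smul {k : ℤ} {f : ℍ → ℂ} {p : PowerSeries ℂ} (hf : Bd k f p) (c : ℂ) :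
    Bd k (c • f) (PowerSeries.C c * p) := ⟨hf.mf.smul c, hf.hp.smul c⟩

lemma Bd.zero8 {f : ℍ → ℂ} {p : PowerSeries ℂ} (hf : Bd 8 f p) (h : ∀ n < 6, p.coeff n = 0) :
    p = 0 := by
  have h0 : f = 0 := sturm8 hf.mf (by rw [hf.hp.eq]; exact h)
  rw [← hf.hp.eq, h0]
  exact UpperHalfPlane.qExpansion_zero 1

lemma exW2 : ∃ f, Bd 2 f Th2 := by
  refine ⟨(1 / 6 : ℂ) • W2, mf_W2.smul _, ?_⟩
  have h1 : HP E2 e2 := ⟨good_E2, rfl⟩
  have h2 := ((h1.V 2).add (h1.smul (-1))).smul (1 / 6 : ℂ)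
  have e : PowerSeries.C (1 / 6 : ℂ) * (PowerSeries.C ((7 : ℂ) ^ ((2 : ℤ) - 1)) * subq 7 e2 +
      PowerSeries.C (-1 : ℂ) * e2) = Th2 := by
    unfold Th2
    congr 1
    have h7 : PowerSeries.C ((7 : ℂ) ^ ((2 : ℤ) - 1)) = (7 : PowerSeries ℂ) := by
      norm_num
      exact map_ofNat _ 7
    have hm : PowerSeries.C (-1 : ℂ) = (-1 : PowerSeries ℂ) := by simp
    rw [h7, hm]
    ring
  rw [e] at h2
  exact h2

lemma exV {k : ℤ} (f : ModularForm 𝒮ℒ k) : ∃ g, Bd k g (subq 7 (qExpansion 1 f)) := by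
  refine ⟨((7 : ℂ) ^ (k - 1))⁻¹ • V k f, (mf_V f).smul _, ?_⟩
  have h1 : HP (f : ℍ → ℂ) (qExpansion 1 f) := ⟨good_modular f, rfl⟩
  have h2 := (h1.V k).smul ((7 : ℂ) ^ (k - 1))⁻¹
  rw [← mul_assoc, ← map_mul, inv_mul_cancel₀ (zpow_ne_zero _ (by norm_num)), map_one, one_mul] at h2
  exact h2

lemma exO {k : ℤ} (f : ModularForm 𝒮ℒ k) : ∃ g, Bd k g (qExpansion 1 f) :=
  ⟨f, mf_one f, good_modular f, rfl⟩

lemma ex4 : ∃ g, Bd 4 g e4 := exO E₄
lemma ex6 : ∃ g, Bd 6 g e6 := exO E₆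
lemma exV4 : ∃ g, Bd 4 g (subq 7 e4) := exV E₄
lemma exV6 : ∃ g, Bd 6 g (subq 7 e6) := exV E₆

lemma exTT : ∃ g, Bd 4 g (Th2 ^ 2) := by
  obtain ⟨f, hf⟩ := exW2
  have := hf.mul hf
  exact ⟨_, by rw [sq]; exact this⟩

/-- linear combinations of the three basic forms -/
lemma exlin (a b c : ℂ) : ∃ g, Bd 4 g
    (PowerSeries.C a * subq 7 e4 + PowerSeries.C b * e4 + PowerSeries.C c * Th2 ^ 2) := by
  obtain ⟨f1, h1⟩ := exV4
  obtain ⟨f2, h2⟩ := ex4
  obtain ⟨f3, h3⟩ := exTT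
  exact ⟨_, ((h1.smul a).add (h2.smul b)).add (h3.smul c)⟩

lemma Y0_eq : Y0 = PowerSeries.C (2401 / 960 : ℂ) * subq 7 e4 + PowerSeries.C (29 / 960 : ℂ) * e4 +
    PowerSeries.C (-1470 / 960 : ℂ) * Th2 ^ 2 := by
  unfold Y0
  rw [show (2401 : PowerSeries ℂ) = PowerSeries.C (2401 : ℂ) from (map_ofNat _ 2401).symm,
    show (29 : PowerSeries ℂ) = PowerSeries.C (29 : ℂ) from (map_ofNat _ 29).symm,
    show (1470 : PowerSeries ℂ) = PowerSeries.C (1470 : ℂ) from (map_ofNat _ 1470).symm,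
    show (2401 / 960 : ℂ) = (1 / 960) * 2401 by ring, show (29 / 960 : ℂ) = (1 / 960) * 29 by ring,
    show (-1470 / 960 : ℂ) = (1 / 960) * (-1470) by ring, map_mul, map_mul, map_mul, map_neg]
  ring

lemma Y1_eq : Y1 = PowerSeries.C (-49 / 160 : ℂ) * subq 7 e4 + PowerSeries.C (-1 / 160 : ℂ) * e4 +
    PowerSeries.C (50 / 160 : ℂ) * Th2 ^ 2 := by
  unfold Y1
  rw [show (49 : PowerSeries ℂ) = PowerSeries.C (49 : ℂ) from (map_ofNat _ 49).symm,
    show (50 : PowerSeries ℂ) = PowerSeries.C (50 : ℂ) from (map_ofNat _ 50).symm,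
    show (-49 / 160 : ℂ) = (1 / 160) * (-49) by ring, show (-1 / 160 : ℂ) = (1 / 160) * (-1) by ring,
    show (50 / 160 : ℂ) = (1 / 160) * 50 by ring, map_mul, map_mul, map_mul, map_neg, map_neg, map_one]
  ring

lemma Y2_eq : Y2 = PowerSeries.C (29 / 960 : ℂ) * subq 7 e4 + PowerSeries.C (1 / 960 : ℂ) * e4 +
    PowerSeries.C (-30 / 960 : ℂ) * Th2 ^ 2 := by
  unfold Y2
  rw [show (29 : PowerSeries ℂ) = PowerSeries.C (29 : ℂ) from (map_ofNat _ 29).symm,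
    show (30 : PowerSeries ℂ) = PowerSeries.C (30 : ℂ) from (map_ofNat _ 30).symm,
    show (29 / 960 : ℂ) = (1 / 960) * 29 by ring,
    show (-30 / 960 : ℂ) = (1 / 960) * (-30) by ring, map_mul, map_mul, map_neg]
  ring

lemma exY0 : ∃ g, Bd 4 g Y0 := by rw [Y0_eq]; exact exlin _ _ _
lemma exY1 : ∃ g, Bd 4 g Y1 := by rw [Y1_eq]; exact exlin _ _ _
lemma exY2 : ∃ g, Bd 4 g Y2 := by rw [Y2_eq]; exact exlin _ _ _

/-! ### The first six coefficients -/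

/-- the first six coefficients of `p` are in the list -/
def C6 (p : PowerSeries ℂ) (l : List ℚ) : Prop := ∀ n < 6, p.coeff n = ((l.getD n 0 : ℚ) : ℂ)

/-- the Cauchy product -/
def cv (l m : List ℚ) : List ℚ :=
  (List.range 6).map fun n => ((List.range (n + 1)).map fun i => l.getD i 0 * m.getD (n - i) 0).sum

/-- linear combination -/
def lc (a b : ℚ) (l m : List ℚ) : List ℚ :=
  (List.range 6).map fun n => a * l.getD n 0 + b * m.getD n 0

lemma C6.mul {p r : PowerSeries ℂ} {l m : List ℚ} (hp : C6 p l) (hr : C6 r m) : C6 (p * r) (cv l m) := by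
  intro n hn
  rw [PowerSeries.coeff_mul, Finset.Nat.sum_antidiagonal_eq_sum_range_succ_mk]
  have h1 : (cv l m).getD n 0 = ((List.range (n + 1)).map fun i => l.getD i 0 * m.getD (n - i) 0).sum := by
    unfold cv
    rw [List.getD_eq_getElem?_getD, List.getElem?_map, List.getElem?_range hn]
    rfl
  rw [h1, ← List.sum_toFinset _ List.nodup_range, List.toFinset_range, Rat.cast_sum]
  refine Finset.sum_congr rfl fun i hi => ?_
  have hi' := Finset.mem_range.1 hi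
  rw [hp i (by omega), hr (n - i) (by omega), Rat.cast_mul]

lemma C6.lc {p r : PowerSeries ℂ} {l m : List ℚ} (hp : C6 p l) (hr : C6 r m) (a b : ℚ) :
    C6 (PowerSeries.C (a : ℂ) * p + PowerSeries.C (b : ℂ) * r) (lc a b l m) := by
  intro n hn
  have h1 : (FR.lc a b l m).getD n 0 = a * l.getD n 0 + b * m.getD n 0 := by
    unfold FR.lc
    rw [List.getD_eq_getElem?_getD, List.getElem?_map, List.getElem?_range hn]
    rfl
  rw [h1, map_add, PowerSeries.coeff_C_mul, PowerSeries.coeff_C_mul, hp n hn, hr n hn]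
  push_cast
  ring

lemma sg (k n v : ℕ) (h : (∑ d ∈ n.divisors, d ^ k) = v) :
    ((ArithmeticFunction.sigma k n : ℕ) : ℂ) = (v : ℂ) := by
  rw [ArithmeticFunction.sigma_apply, h]

lemma c6_e2 : C6 e2 [1, -24, -72, -96, -168, -144] := by
  intro n hn
  rw [coeff_e2]
  interval_cases n
  · simp
  · rw [if_neg (by norm_num), sg 1 1 1 (by decide +kernel)]; norm_num
  · rw [if_neg (by norm_num), sg 1 2 3 (by decide +kernel)]; norm_num
  · rw [if_neg (by norm_num), sg 1 3 4 (by decide +kernel)]; norm_num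
  · rw [if_neg (by norm_num), sg 1 4 7 (by decide +kernel)]; norm_num
  · rw [if_neg (by norm_num), sg 1 5 6 (by decide +kernel)]; norm_num

lemma c6_e4 : C6 e4 [1, 240, 2160, 6720, 17520, 30240] := by
  intro n hn
  rw [coeff_e4]
  interval_cases n
  · simp
  · rw [if_neg (by norm_num), sg 3 1 1 (by decide +kernel)]; norm_num
  · rw [if_neg (by norm_num), sg 3 2 9 (by decide +kernel)]; norm_num
  · rw [if_neg (by norm_num), sg 3 3 28 (by decide +kernel)]; norm_num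
  · rw [if_neg (by norm_num), sg 3 4 73 (by decide +kernel)]; norm_num
  · rw [if_neg (by norm_num), sg 3 5 126 (by decide +kernel)]; norm_num

lemma c6_e6 : C6 e6 [1, -504, -16632, -122976, -532728, -1575504] := by
  intro n hn
  rw [coeff_e6]
  interval_cases n
  · simp
  · rw [if_neg (by norm_num), sg 5 1 1 (by decide +kernel)]; norm_num
  · rw [if_neg (by norm_num), sg 5 2 33 (by decide +kernel)]; norm_num
  · rw [if_neg (by norm_num), sg 5 3 244 (by decide +kernel)]; norm_num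
  · rw [if_neg (by norm_num), sg 5 4 1057 (by decide +kernel)]; norm_num
  · rw [if_neg (by norm_num), sg 5 5 3126 (by decide +kernel)]; norm_num

lemma c6_subq {p : PowerSeries ℂ} (h : p.coeff 0 = 1) : C6 (subq 7 p) [1, 0, 0, 0, 0, 0] := by
  intro n hn
  unfold subq
  rw [PowerSeries.coeff_mk]
  interval_cases n
  · simp [h]
  all_goals (rw [if_neg (by norm_num)]; norm_num)

lemma s2 : C6 (subq 7 e2) [1, 0, 0, 0, 0, 0] := c6_subq (by rw [coeff_e2]; simp)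
lemma s4 : C6 (subq 7 e4) [1, 0, 0, 0, 0, 0] := c6_subq (by rw [coeff_e4]; simp)
lemma s6 : C6 (subq 7 e6) [1, 0, 0, 0, 0, 0] := c6_subq (by rw [coeff_e6]; simp)

lemma C6.cast {p : PowerSeries ℂ} {l m : List ℚ} (h : C6 p l) (e : l = m) : C6 p m := e ▸ h

lemma C6.eq {p r : PowerSeries ℂ} (h : C6 p (List.replicate 6 0) ) (e : p = r) :
    C6 r (List.replicate 6 0) := e ▸ h

lemma c6_th2 : C6 Th2 [1, 4, 12, 16, 28, 24] := by
  have h := (s2.lc c6_e2 (7 / 6) (-1 / 6)).cast (m := [1, 4, 12, 16, 28, 24]) (by decide +kernel)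
  have e : PowerSeries.C (((7 / 6 : ℚ)) : ℂ) * subq 7 e2 + PowerSeries.C (((-1 / 6 : ℚ)) : ℂ) * e2 =
      Th2 := by
    unfold Th2
    rw [show (((7 / 6 : ℚ)) : ℂ) = (1 / 6) * 7 by push_cast; ring,
      show (((-1 / 6 : ℚ)) : ℂ) = (1 / 6) * (-1) by push_cast; ring, map_mul, map_mul, map_neg,
      map_one, show PowerSeries.C (7 : ℂ) = (7 : PowerSeries ℂ) from map_ofNat _ 7]
    ring
  rw [← e]
  exact h

lemma c6_th22 : C6 (Th2 ^ 2) [1, 8, 40, 128, 328, 656] := by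
  rw [sq]
  exact (c6_th2.mul c6_th2).cast (by decide +kernel)

lemma c6_lin (a b c : ℚ) {l : List ℚ}
    (h : lc 1 c (lc a b [1, 0, 0, 0, 0, 0] [1, 240, 2160, 6720, 17520, 30240])
      [1, 8, 40, 128, 328, 656] = l) :
    C6 (PowerSeries.C (a : ℂ) * subq 7 e4 + PowerSeries.C (b : ℂ) * e4 +
      PowerSeries.C (c : ℂ) * Th2 ^ 2) l := by
  have h1 := ((s4.lc c6_e4 a b).lc c6_th22 1 c).cast h
  rw [Rat.cast_one, map_one, one_mul] at h1
  exact h1

lemma c6_Y0 : C6 Y0 [1, -5, 4, 7, 27, -91] := by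
  have h := c6_lin (2401 / 960) (29 / 960) (-1470 / 960) (l := [1, -5, 4, 7, 27, -91])
    (by decide +kernel)
  rw [Y0_eq]
  push_cast at h
  exact h

lemma c6_Y1 : C6 Y1 [0, 1, -1, -2, -7, 16] := by
  have h := c6_lin (-49 / 160) (-1 / 160) (50 / 160) (l := [0, 1, -1, -2, -7, 16])
    (by decide +kernel)
  rw [Y1_eq]
  push_cast at h
  exact h

lemma c6_Y2 : C6 Y2 [0, 0, 1, 3, 8, 11] := by
  have h := c6_lin (29 / 960) (1 / 960) (-30 / 960) (l := [0, 0, 1, 3, 8, 11])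
    (by decide +kernel)
  rw [Y2_eq]
  push_cast at h
  exact h

/-- the general principle -/
lemma principle {p r : PowerSeries ℂ} {l : List ℚ} (h1 : ∃ f, Bd 8 f p) (h2 : ∃ g, Bd 8 g r)
    (hl : C6 p l) (hr : C6 r l) : p = r := by
  obtain ⟨f, hf⟩ := h1
  obtain ⟨g, hg⟩ := h2
  have h := (hf.add (hg.smul (-1))).zero8 (by
    intro n hn
    rw [map_add, PowerSeries.coeff_C_mul, hl n hn, hr n hn]
    ring)
  have e : PowerSeries.C (-1 : ℂ) = (-1 : PowerSeries ℂ) := by simp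
  rw [e] at h
  linear_combination h

lemma exmul {p r : PowerSeries ℂ} (h1 : ∃ f, Bd 4 f p) (h2 : ∃ g, Bd 4 g r) : ∃ f, Bd 8 f (p * r) := by
  obtain ⟨f, hf⟩ := h1
  obtain ⟨g, hg⟩ := h2
  exact ⟨f * g, hf.mul hg⟩

lemma ex62 {p : PowerSeries ℂ} (h1 : ∃ f, Bd 6 f p) : ∃ f, Bd 8 f (p * Th2) := by
  obtain ⟨f, hf⟩ := h1
  obtain ⟨g, hg⟩ := exW2
  exact ⟨f * g, hf.mul hg⟩

lemma exlc {p r : PowerSeries ℂ} (h1 : ∃ f, Bd 8 f p) (h2 : ∃ g, Bd 8 g r) (a b : ℚ) :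
    ∃ f, Bd 8 f (PowerSeries.C (a : ℂ) * p + PowerSeries.C (b : ℂ) * r) := by
  obtain ⟨f, hf⟩ := h1
  obtain ⟨g, hg⟩ := h2
  exact ⟨_, (hf.smul a).add (hg.smul b)⟩

/-- quadratic forms in `Y0, Y1, Y2` -/
noncomputable def QF (a b c d e : ℚ) : PowerSeries ℂ :=
  PowerSeries.C ((1 : ℚ) : ℂ) * (PowerSeries.C ((1 : ℚ) : ℂ) * (PowerSeries.C ((a : ℚ) : ℂ) * (Y0 * Y0) +
    PowerSeries.C ((b : ℚ) : ℂ) * (Y0 * Y1)) + PowerSeries.C ((1 : ℚ) : ℂ) *
    (PowerSeries.C ((c : ℚ) : ℂ) * (Y1 * Y1) + PowerSeries.C ((d : ℚ) : ℂ) * (Y1 * Y2))) +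
    PowerSeries.C ((e : ℚ) : ℂ) * (Y2 * Y2)

lemma exQF (a b c d e : ℚ) : ∃ f, Bd 8 f (QF a b c d e) :=
  exlc (exlc (exlc (exmul exY0 exY0) (exmul exY0 exY1) a b)
    (exlc (exmul exY1 exY1) (exmul exY1 exY2) c d) 1 1) (exmul exY2 exY2) 1 e

/-- its first coefficients -/
def qf (a b c d e : ℚ) : List ℚ :=
  lc 1 e (lc 1 1 (lc a b (cv [1, -5, 4, 7, 27, -91] [1, -5, 4, 7, 27, -91])
    (cv [1, -5, 4, 7, 27, -91] [0, 1, -1, -2, -7, 16]))
    (lc c d (cv [0, 1, -1, -2, -7, 16] [0, 1, -1, -2, -7, 16])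
    (cv [0, 1, -1, -2, -7, 16] [0, 0, 1, 3, 8, 11])))
    (cv [0, 0, 1, 3, 8, 11] [0, 0, 1, 3, 8, 11])

lemma c6_QF (a b c d e : ℚ) : C6 (QF a b c d e) (qf a b c d e) :=
  ((((c6_Y0.mul c6_Y0).lc (c6_Y0.mul c6_Y1) a b).lc
    ((c6_Y1.mul c6_Y1).lc (c6_Y1.mul c6_Y2) c d) 1 1).lc (c6_Y2.mul c6_Y2) 1 e)

lemma i1 : Y1 * Y1 = Y0 * Y2 :=
  principle (exmul exY1 exY1) (exmul exY0 exY2) (l := [0, 0, 1, -2, -3, -10])
    ((c6_Y1.mul c6_Y1).cast (by decide +kernel)) ((c6_Y0.mul c6_Y2).cast (by decide +kernel))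

lemma i2 : e6 * Th2 = QF 1 (-490) (-21609) (-235298) (-823543) :=
  principle (ex62 ex6) (exQF _ _ _ _ _)
    (l := [1, -500, -18636, -195536, -1232252, -5462328])
    ((c6_e6.mul c6_th2).cast (by decide +kernel)) ((c6_QF _ _ _ _ _).cast (by decide +kernel))

lemma i3 : subq 7 e6 * Th2 = QF 1 14 63 70 (-7) :=
  principle (ex62 exV6) (exQF _ _ _ _ _)
    (l := [1, 4, 12, 16, 28, 24])
    ((s6.mul c6_th2).cast (by decide +kernel)) ((c6_QF _ _ _ _ _).cast (by decide +kernel))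

lemma cN (n : ℕ) : PowerSeries.C (((n : ℚ)) : ℂ) = (n : PowerSeries ℂ) := by
  push_cast
  simp

lemma cNn (n : ℕ) : PowerSeries.C (((-(n : ℚ) : ℚ)) : ℂ) = -(n : PowerSeries ℂ) := by
  push_cast
  simp

theorem t2 : JobT2 := by
  refine ⟨by rw [sq]; exact i1, ?_, ?_⟩
  · rw [i2]
    unfold QF
    have h1 := cN 1
    have h2 := cNn 490
    have h3 := cNn 21609
    have h4 := cNn 235298
    have h5 := cNn 823543
    push_cast at h1 h2 h3 h4 h5 ⊢
    rw [h1, h2, h3, h4, h5]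
    ring
  · rw [i3]
    unfold QF
    have h1 := cN 1
    have h2 := cN 14
    have h3 := cN 63
    have h4 := cN 70
    have h5 := cNn 7
    push_cast at h1 h2 h3 h4 h5 ⊢
    rw [h1, h2, h3, h4, h5]
    ring

end Pool.Agent.V5helper91.FR
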