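import Pool.Agent.V5helper40.FR.Defs
import Pool.Agent.W97.TW.HeckeForm

/-!
# Modular forms on `Γ₀(7)` as functions, and the Sturm bound (helper91, for MP_fad775_nt)
-/

set_option autoImplicit false

open UpperHalfPlane hiding I
open Complex Filter Topology EisensteinSeries ModularForm MatrixGroups Function CongruenceSubgroup
open scoped Manifold MatrixGroups ModularForm

namespace Pool.Agent.V5helper91.FR

open Pool.Agent.R322.QD
open Pool.Agent.W97.TW (al slash_al al_mul mkSL mkSL_coe mkSL_mem exists_mkSL rep rep_mul idx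
  none_mem_idx rep_pos_none rep_pos_some)

/-- modular forms on `Γ₀(7)` as functions -/
structure MF (k : ℤ) (f : ℍ → ℂ) : Prop where
  inv : ∀ γ : SL(2, ℤ), γ ∈ Gamma0 7 → f ∣[k] γ = f
  hol : MDiff f
  bdd : ∀ γ : SL(2, ℤ), IsBoundedAtImInfty (f ∣[k] γ)

lemma MF.mul {k l : ℤ} {f g : ℍ → ℂ} (hf : MF k f) (hg : MF l g) : MF (k + l) (f * g) := by
  refine ⟨fun γ hγ => ?_, hf.hol.mul hg.hol, fun γ => ?_⟩
  · rw [mul_slash_SL2, hf.inv γ hγ, hg.inv γ hγ]
  · rw [mul_slash_SL2]; exact (hf.bdd γ).mul (hg.bdd γ)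

lemma MF.add {k : ℤ} {f g : ℍ → ℂ} (hf : MF k f) (hg : MF k g) : MF k (f + g) := by
  refine ⟨fun γ hγ => ?_, hf.hol.add hg.hol, fun γ => ?_⟩
  · rw [SlashAction.add_slash, hf.inv γ hγ, hg.inv γ hγ]
  · rw [SlashAction.add_slash]; exact (hf.bdd γ).add (hg.bdd γ)

lemma MF.smul {k : ℤ} {f : ℍ → ℂ} (hf : MF k f) (c : ℂ) : MF k (c • f) := by
  refine ⟨fun γ hγ => ?_, hf.hol.const_smul c, fun γ => ?_⟩
  · rw [SL_smul_slash, hf.inv γ hγ]
  · rw [SL_smul_slash]; exact (hf.bdd γ).const_smul_left c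

lemma T_mem : ModularGroup.T ∈ Gamma0 7 := by
  rw [Gamma0_mem]
  simp [ModularGroup.T]

lemma MF.form {k : ℤ} {f : ℍ → ℂ} (hf : MF k f) :
    ∃ F : ModularForm (Gamma0 7 : Subgroup (GL (Fin 2) ℝ)) k, (F : ℍ → ℂ) = f := by
  refine ⟨{ toFun := f, slash_action_eq' := ?_, holo' := hf.hol, bdd_at_cusps' := ?_ }, rfl⟩
  · rintro g ⟨γ, hγ, rfl⟩
    exact hf.inv γ hγ
  · intro c hc
    rw [Subgroup.IsArithmetic.isCusp_iff_isCusp_SL2Z] at hc
    rw [OnePoint.isBoundedAt_iff_forall_SL2Z hc]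
    intro γ _
    exact hf.bdd γ

lemma per7 : (1 : ℝ) ∈ (Gamma0 7 : Subgroup (GL (Fin 2) ℝ)).strictPeriods := by
  rw [CongruenceSubgroup.strictPeriods_Gamma0]; exact AddSubgroup.mem_zmultiples 1

lemma MF.good {k : ℤ} {f : ℍ → ℂ} (hf : MF k f) : Good f := by
  obtain ⟨F, rfl⟩ := hf.form
  refine ⟨SlashInvariantFormClass.periodic_comp_ofComplex F per7, hf.hol, ?_⟩
  have := hf.bdd 1
  simpa using this

/-! ### The Sturm bound -/

/-- exponential decay from vanishing Fourier coefficients -/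
theorem decay {f : ℍ → ℂ} (hf : Good f) (M : ℕ) (h : ∀ n < M, (qExpansion 1 f).coeff n = 0) :
    ∃ C : ℝ, 0 ≤ C ∧ ∀ τ : ℍ, 1 ≤ τ.im → ‖f τ‖ ≤ C * Real.exp (-(2 * Real.pi * M * τ.im)) := by
  set b : ℕ → ℂ := fun n => (qExpansion 1 f).coeff n with hb0
  have hs : ∀ τ : ℍ, HasSum (fun m : ℕ => b m * Function.Periodic.qParam 1 τ ^ m) (f τ) := fun τ => by
    have := hasSum_qExpansion one_pos hf.per hf.hol hf.bdd τ
    simpa [smul_eq_mul] using this
  have hS : Summable (fun m : ℕ => ‖b m‖ * Real.exp (-(2 * Real.pi)) ^ m) := by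
    have := (hs UpperHalfPlane.I).summable.norm
    refine this.congr (fun m => ?_)
    rw [norm_mul, norm_pow, Function.Periodic.norm_qParam]
    congr 3
    simp
  refine ⟨(∑' m : ℕ, ‖b m‖ * Real.exp (-(2 * Real.pi)) ^ m) * Real.exp (2 * Real.pi * M),
    mul_nonneg (tsum_nonneg fun m => by positivity) (Real.exp_pos _).le, fun τ hτ => ?_⟩
  have key : ∀ m : ℕ, ‖b m * Function.Periodic.qParam 1 τ ^ m‖ ≤
      ‖b m‖ * Real.exp (-(2 * Real.pi)) ^ m * Real.exp (-(2 * Real.pi * M * (τ.im - 1))) := by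
    intro m
    rw [norm_mul, norm_pow, Function.Periodic.norm_qParam]
    by_cases hm : m < M
    · rw [hb0]
      simp only
      rw [h m hm]; simp
    · rw [mul_assoc ‖b m‖ (Real.exp (-(2 * Real.pi)) ^ m)]
      refine mul_le_mul_of_nonneg_left ?_ (norm_nonneg (b m))
      rw [← Real.exp_nat_mul, ← Real.exp_nat_mul, ← Real.exp_add, Real.exp_le_exp]
      have h1 : (M : ℝ) ≤ m := by exact_mod_cast not_lt.mp hm
      have h2 : 0 ≤ τ.im - 1 := by linarith
      have h3 : (M : ℝ) * (τ.im - 1) ≤ m * (τ.im - 1) := mul_le_mul_of_nonneg_right h1 h2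
      have h4 := mul_le_mul_of_nonneg_left h3 (by positivity : (0 : ℝ) ≤ 2 * Real.pi)
      have h5 : ((τ : ℂ)).im = τ.im := rfl
      rw [h5]
      have e1 : (m : ℝ) * (-2 * Real.pi * τ.im / 1) = -(2 * Real.pi * (m * (τ.im - 1))) +
        m * (-(2 * Real.pi)) := by ring
      rw [e1]
      have e2 : 2 * Real.pi * (M : ℝ) * (τ.im - 1) = 2 * Real.pi * (M * (τ.im - 1)) := by ring
      rw [e2]
      linarith
  have hb := tsum_of_norm_bounded ((hS.mul_right
    (Real.exp (-(2 * Real.pi * M * (τ.im - 1))))).hasSum) key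
  rw [(hs τ).tsum_eq] at hb
  refine hb.trans (le_of_eq ?_)
  rw [tsum_mul_right]
  have e3 : Real.exp (-(2 * Real.pi * M * (τ.im - 1))) =
      Real.exp (2 * Real.pi * M) * Real.exp (-(2 * Real.pi * M * τ.im)) := by
    rw [← Real.exp_add]
    congr 1
    ring
  rw [e3]
  ring

/-- decay of a form of level one gives vanishing coefficients -/
theorem coeff_zero {K : ℤ} (g : ModularForm 𝒮ℒ K) (M : ℕ) (C A : ℝ)
    (h : ∀ τ : ℍ, A ≤ τ.im → ‖g τ‖ ≤ C * Real.exp (-(2 * Real.pi * M * τ.im))) (n : ℕ) (hn : n < M) :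
    (qExpansion 1 g).coeff n = 0 := by
  have hper : (1 : ℝ) ∈ (𝒮ℒ : Subgroup (GL (Fin 2) ℝ)).strictPeriods := by
    rw [Subgroup.strictPeriods_SL2Z]; exact AddSubgroup.mem_zmultiples 1
  have hC : 0 ≤ C := by
    have := (norm_nonneg _).trans (h ⟨(max A 1 : ℝ) * Complex.I, by simp⟩ (by
      show A ≤ ((((max A 1 : ℝ) : ℂ) * Complex.I)).im
      simp))
    exact nonneg_of_mul_nonneg_left this (Real.exp_pos _)
  have key : ∀ t : ℝ, 0 < t → A ≤ t → ‖(qExpansion 1 g).coeff n‖ ≤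
      C * Real.exp (-(2 * Real.pi * ((M : ℝ) - n) * t)) := by
    intro t ht hA
    rw [ModularFormClass.qExpansion_coeff_eq_intervalIntegral (f := g) one_pos hper n ht]
    rw [Complex.ofReal_one, div_one, one_mul]
    have h1 := intervalIntegral.norm_integral_le_of_norm_le_const (a := (0 : ℝ)) (b := 1)
      (f := fun u : ℝ => 1 / Function.Periodic.qParam 1 ((u : ℂ) + t * Complex.I) ^ n *
        g ⟨(u : ℂ) + t * Complex.I, by simpa using ht⟩)
      (C := C * Real.exp (-(2 * Real.pi * ((M : ℝ) - n) * t))) (fun u _ => ?_)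
    · simpa using h1
    · have him : ((u : ℂ) + t * Complex.I).im = t := by simp
      have h2 := h ⟨(u : ℂ) + t * Complex.I, by simpa using ht⟩ (by
        show A ≤ ((u : ℂ) + t * Complex.I).im
        rw [him]; exact hA)
      have h3 : (⟨(u : ℂ) + t * Complex.I, by simpa using ht⟩ : ℍ).im = t := him
      rw [h3] at h2
      have hq : ‖Function.Periodic.qParam 1 ((u : ℂ) + t * Complex.I)‖ =
          Real.exp (-2 * Real.pi * t / 1) := by
        rw [Function.Periodic.norm_qParam, him]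
      rw [norm_mul, norm_div, norm_one, norm_pow, hq]
      refine (mul_le_mul_of_nonneg_left h2 (by positivity)).trans (le_of_eq ?_)
      rw [← Real.exp_nat_mul, one_div, ← Real.exp_neg]
      have : Real.exp (-((n : ℝ) * (-2 * Real.pi * t / 1))) *
          (C * Real.exp (-(2 * Real.pi * M * t))) =
          C * (Real.exp (-((n : ℝ) * (-2 * Real.pi * t / 1))) * Real.exp (-(2 * Real.pi * M * t))) := by
        ring
      rw [this, ← Real.exp_add]
      congr 2
      ring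
  have hlim : Tendsto (fun t : ℝ => C * Real.exp (-(2 * Real.pi * ((M : ℝ) - n) * t))) atTop (𝓝 0) := by
    rw [show (0 : ℝ) = C * 0 by ring]
    refine Tendsto.const_mul C (Real.tendsto_exp_atBot.comp ?_)
    refine tendsto_neg_atTop_atBot.comp ?_
    refine Tendsto.const_mul_atTop ?_ tendsto_id
    have : (n : ℝ) < M := by exact_mod_cast hn
    have h2 : 0 < (M : ℝ) - n := by linarith
    positivity
  have h0 : ‖(qExpansion 1 g).coeff n‖ ≤ 0 := by
    refine ge_of_tendsto hlim ?_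
    filter_upwards [eventually_ge_atTop (max A 1)] with t ht
    exact key t (lt_of_lt_of_le one_pos ((le_max_right _ _).trans ht)) ((le_max_left _ _).trans ht)
  exact norm_le_zero_iff.mp h0

/-- the coset space -/
abbrev QQ : Type := 𝒮ℒ ⧸ ((Gamma0 7 : Subgroup (GL (Fin 2) ℝ)).subgroupOf 𝒮ℒ)

/-- representatives of the cosets -/
def cr : Option (Fin 7) → SL(2, ℤ)
  | none => 1
  | some j => mkSL (j : ℕ) (-1) 1 0 (by ring)

lemma cr_surj (γ : SL(2, ℤ)) : ∃ j, (cr j)⁻¹ * γ ∈ Gamma0 7 := by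
  obtain ⟨a, b, c, d, h, rfl⟩ := exists_mkSL γ
  by_cases h7 : (7 : ℤ) ∣ c
  · refine ⟨none, ?_⟩
    unfold cr
    rw [inv_one, one_mul, mkSL_mem]
    exact h7
  · obtain ⟨j, t, ht⟩ := Pool.Agent.W97.TW.exists_solution (p := 7) (by norm_num) c a h7
    refine ⟨some j, ?_⟩
    have e : (cr (some j))⁻¹ * mkSL a b c d h = mkSL c d ((j : ℕ) * c - a) ((j : ℕ) * d - b)
        (by linear_combination h) := by
      rw [inv_mul_eq_iff_eq_mul]
      apply Matrix.SpecialLinearGroup.ext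
      intro u v
      rw [Matrix.SpecialLinearGroup.coe_mul]
      unfold cr
      simp only
      rw [mkSL_coe, mkSL_coe, mkSL_coe, Matrix.mul_fin_two]
      fin_cases u <;> fin_cases v <;> simp
    rw [e, mkSL_mem]
    exact ⟨-t, by push_cast at ht ⊢; linear_combination -ht⟩

lemma card_QQ : Nat.card QQ ≤ 8 := by
  have h : Function.Surjective (fun j : Option (Fin 7) =>
      (QuotientGroup.mk ⟨((cr j : SL(2, ℤ)) : GL (Fin 2) ℝ), ⟨cr j, rfl⟩⟩ : QQ)) := by
    intro q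
    induction q using Quotient.inductionOn with
    | h r =>
      obtain ⟨r, γ, rfl⟩ := r
      obtain ⟨j, hj⟩ := cr_surj γ
      refine ⟨j, ?_⟩
      apply QuotientGroup.eq.2
      rw [Subgroup.mem_subgroupOf]
      refine ⟨(cr j)⁻¹ * γ, hj, ?_⟩
      rw [map_mul, map_inv]
      rfl
  have := Nat.card_le_card_of_surjective _ h
  simpa using this

open SlashInvariantForm in
/-- **Sturm bound** in weight 8 -/
theorem sturm8 {f : ℍ → ℂ} (hf : MF 8 f) (h : ∀ n < 6, (qExpansion 1 f).coeff n = 0) : f = 0 := by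
  classical
  obtain ⟨C, hC, hd⟩ := decay hf.good 6 h
  obtain ⟨F, rfl⟩ := hf.form
  have hg : ModularForm.norm 𝒮ℒ F = 0 := by
    apply ModularForm.sturm_bound_levelOne
    refine lt_of_lt_of_le ?_ (PowerSeries.nat_le_order _ 6 ?_)
    · have := card_QQ
      exact_mod_cast (by omega : (8 * (Nat.card QQ : ℤ)).toNat / 12 < 6)
    · let _ : Fintype QQ := Fintype.ofFinite QQ
      have hbd : ∀ q : QQ, ∃ B A : ℝ, ∀ z : ℍ, A ≤ z.im → ‖quotientFunc (ℋ := 𝒮ℒ) F q z‖ ≤ B := by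
        intro q
        induction q using Quotient.inductionOn with
        | h r =>
          obtain ⟨r, γ, rfl⟩ := r
          have h1 := ModularFormClass.bdd_at_infty_slash F γ⁻¹
          rw [isBoundedAtImInfty_iff] at h1
          obtain ⟨B, A, h1⟩ := h1
          refine ⟨B, A, fun z hz => ?_⟩
          have h2 := h1 z hz
          rw [quotientFunc_mk]
          rw [ModularForm.SL_slash, map_inv] at h2
          exact h2
      choose B A hBA using hbd
      obtain ⟨A0, hA0⟩ : ∃ A0 : ℝ, ∀ q, A q ≤ A0 := by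
        refine ⟨∑ q, |A q|, fun q => ?_⟩
        exact (le_abs_self _).trans (Finset.single_le_sum (f := fun q => |A q|)
          (fun _ _ => abs_nonneg _) (Finset.mem_univ q))
      let q0 : QQ := QuotientGroup.mk 1
      intro n hn
      refine coeff_zero (ModularForm.norm 𝒮ℒ F) 6 (C * ∏ q ∈ Finset.univ.erase q0, |B q|)
        (max A0 1) ?_ n hn
      intro τ hτ
      have e1 : (ModularForm.norm 𝒮ℒ F) τ = ∏ q : QQ, quotientFunc (ℋ := 𝒮ℒ) F q τ := by
        have := congrFun (ModularForm.coe_norm 𝒮ℒ F) τ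
        rw [this, Finset.prod_apply]
      rw [e1, ← Finset.mul_prod_erase Finset.univ _ (Finset.mem_univ q0), norm_mul, norm_prod]
      have e2 : quotientFunc (ℋ := 𝒮ℒ) F q0 τ = F τ := by
        have h5 : quotientFunc (ℋ := 𝒮ℒ) F q0 = (F : ℍ → ℂ) ∣[(8 : ℤ)] ((1 : 𝒮ℒ).val⁻¹) :=
          quotientFunc_mk F (1 : 𝒮ℒ)
        rw [h5]
        simp
      rw [e2]
      have e3 : ∏ q ∈ Finset.univ.erase q0, ‖quotientFunc (ℋ := 𝒮ℒ) F q τ‖ ≤
          ∏ q ∈ Finset.univ.erase q0, |B q| := by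
        refine Finset.prod_le_prod (fun q _ => norm_nonneg _) (fun q _ => ?_)
        exact (hBA q τ (((hA0 q).trans (le_max_left _ _)).trans hτ)).trans (le_abs_self _)
      have e4 := hd τ ((le_max_right _ _).trans hτ)
      calc ‖F τ‖ * ∏ q ∈ Finset.univ.erase q0, ‖quotientFunc (ℋ := 𝒮ℒ) F q τ‖
          ≤ (C * Real.exp (-(2 * Real.pi * (6 : ℕ) * τ.im))) * ∏ q ∈ Finset.univ.erase q0, |B q| :=
            mul_le_mul e4 e3 (Finset.prod_nonneg fun _ _ => norm_nonneg _) (by positivity)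
        _ = _ := by ring
  rw [ModularForm.norm_eq_zero_iff] at hg
  exact hg

/-! ### Functions of level one and their dilations -/

/-- `f(7 τ)`, up to the constant `7^(k-1)` -/
noncomputable def V (k : ℤ) (f : ℍ → ℂ) : ℍ → ℂ := f ∣[k] rep 7 (by norm_num) none

lemma V_apply (k : ℤ) (f : ℍ → ℂ) (z : ℍ) :
    V k f z = 7 ^ (k - 1) * f (ofComplex (7 * (z : ℂ))) := by
  unfold V
  change (f ∣[k] al (7 : ℕ) 0 0 1 (rep_pos_none (by norm_num))) z = _
  rw [slash_al]
  push_cast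
  simp
  ring

lemma rep_10 (j : Option (Fin 7)) : (rep 7 (by norm_num) j) 1 0 = 0 := by
  rcases j with _ | j
  · change ((0 : ℤ) : ℝ) = 0
    simp
  · change ((0 : ℤ) : ℝ) = 0
    simp

lemma V_bdd (k : ℤ) {f : ℍ → ℂ} (hf : ∀ γ : SL(2, ℤ), IsBoundedAtImInfty (f ∣[k] γ)) (γ : SL(2, ℤ)) :
    IsBoundedAtImInfty ((V k f) ∣[k] γ) := by
  obtain ⟨j, -, γ', -, e⟩ := rep_mul (N := 1) (p := 7) (by norm_num) (γ := γ) (by
    rw [Gamma0_mem]
    exact Subsingleton.elim _ _) (i := none) ((none_mem_idx 1 7).2 (by norm_num))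
  unfold V
  rw [SL_slash, ← SlashAction.slash_mul, e, SlashAction.slash_mul]
  exact (hf γ').slash k (rep_10 j)

lemma V_mdiff (k : ℤ) {f : ℍ → ℂ} (hf : MDiff f) : MDiff (V k f) := hf.slash k _

/-- conjugation by `diag(7, 1)` -/
lemma V_slash (k : ℤ) (f : ℍ → ℂ) {γ : SL(2, ℤ)} (hγ : γ ∈ Gamma0 7) :
    ∃ γ' : SL(2, ℤ), γ' 1 1 = γ 1 1 ∧ γ 1 0 = 7 * γ' 1 0 ∧ (V k f) ∣[k] γ = V k (f ∣[k] γ') := by
  obtain ⟨a, b, c, d, h, rfl⟩ := exists_mkSL γ
  rw [mkSL_mem] at hγ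
  obtain ⟨c, rfl⟩ := hγ
  refine ⟨mkSL a (7 * b) c d (by push_cast at h; linear_combination h), rfl, rfl, ?_⟩
  unfold V
  rw [SL_slash, SL_slash, ← SlashAction.slash_mul, ← SlashAction.slash_mul]
  congr 1
  refine al_mul (rep_pos_none (by norm_num)) (rep_pos_none (by norm_num)) _ _ ?_
  rw [mkSL_coe, mkSL_coe, Matrix.mul_fin_two, Matrix.mul_fin_two]
  ext u v
  fin_cases u <;> fin_cases v <;> simp <;> ring

/-- level one forms -/
lemma mf_one {k : ℤ} (f : ModularForm 𝒮ℒ k) : MF k f := by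
  have h1 : ∀ γ : SL(2, ℤ), (f : ℍ → ℂ) ∣[k] γ = f := fun γ =>
    Pool.Agent.Y949.J.slash_modularForm f γ
  exact ⟨fun γ _ => h1 γ, ModularFormClass.holo f, fun γ => by
    rw [h1 γ]; exact ModularFormClass.bdd_at_infty f⟩

lemma mf_V {k : ℤ} (f : ModularForm 𝒮ℒ k) : MF k (V k f) := by
  have h1 : ∀ γ : SL(2, ℤ), (f : ℍ → ℂ) ∣[k] γ = f := fun γ =>
    Pool.Agent.Y949.J.slash_modularForm f γ
  refine ⟨fun γ hγ => ?_, V_mdiff k (ModularFormClass.holo f), V_bdd k fun γ => ?_⟩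
  · obtain ⟨γ', -, -, e⟩ := V_slash k f hγ
    rw [e, h1]
  · rw [h1 γ]; exact ModularFormClass.bdd_at_infty f

/-! ### The form of weight 2 -/

lemma D2_bdd (γ : SL(2, ℤ)) : IsBoundedAtImInfty (D2 γ) := by
  rw [isBoundedAtImInfty_iff]
  refine ⟨2 * Real.pi, 1, fun z hz => ?_⟩
  unfold D2
  obtain ⟨a, b, c, d, h, rfl⟩ := exists_mkSL γ
  have e1 : (mkSL a b c d h) 1 0 = c := rfl
  have e2 : denom (mkSL a b c d h : GL (Fin 2) ℝ) z = c * z + d := by
    rw [ModularGroup.denom_apply]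
    rfl
  rw [e1, e2, norm_div]
  by_cases hc : c = 0
  · rw [hc]
    simp
    positivity
  have h3 : (0 : ℝ) < |(c : ℝ)| := abs_pos.2 (by exact_mod_cast hc)
  have h4 : |(c : ℝ)| ≤ ‖(c : ℂ) * z + d‖ := by
    have h5 := Complex.abs_im_le_norm ((c : ℂ) * z + d)
    have h6 : ((c : ℂ) * z + d).im = c * z.im := by simp
    rw [h6, abs_mul, abs_of_pos z.im_pos] at h5
    nlinarith
  rw [div_le_iff₀ (by linarith)]
  have h7 : ‖2 * (Real.pi : ℂ) * Complex.I * (c : ℂ)‖ = 2 * Real.pi * |(c : ℝ)| := by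
    rw [norm_mul, norm_mul, norm_mul, Complex.norm_I, Complex.norm_real, Complex.norm_intCast,
      Real.norm_eq_abs, abs_of_pos Real.pi_pos]
    simp
  rw [h7]
  exact mul_le_mul_of_nonneg_left h4 (by positivity)

lemma E2_bdd (γ : SL(2, ℤ)) : IsBoundedAtImInfty (E2 ∣[(2 : ℤ)] γ) := by
  rw [E2_slash_action]
  exact isBoundedAtImInfty_E2.sub ((D2_bdd γ).const_smul_left _)

lemma V_D2 {γ γ' : SL(2, ℤ)} (h1 : γ' 1 1 = γ 1 1) (h2 : γ 1 0 = 7 * γ' 1 0) :
    V 2 (D2 γ') = D2 γ := by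
  funext z
  rw [V_apply]
  unfold D2
  obtain ⟨a, b, c, d, h, rfl⟩ := exists_mkSL γ
  obtain ⟨a', b', c', d', h', rfl⟩ := exists_mkSL γ'
  have e3 : d' = d := h1
  have e4 : c = 7 * c' := h2
  subst e3 e4
  have e2 : denom (mkSL a b (7 * c') d' h : GL (Fin 2) ℝ) z = ((7 * c' : ℤ) : ℂ) * z + d' := by
    rw [ModularGroup.denom_apply]
    rfl
  have him : 0 < (7 * (z : ℂ)).im := by
    have := z.im_pos
    simp
    exact this
  have e5 : denom (mkSL a' b' c' d' h' : GL (Fin 2) ℝ) (ofComplex (7 * (z : ℂ)) : ℍ) =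
      (c' : ℂ) * (7 * z) + d' := by
    rw [ModularGroup.denom_apply]
    rw [ofComplex_apply_of_im_pos him]
    rfl
  have e6 : (mkSL a' b' c' d' h') 1 0 = c' := rfl
  have e7 : (mkSL a b (7 * c') d' h) 1 0 = 7 * c' := rfl
  rw [e2, e5, e6, e7]
  push_cast
  rw [show (c' : ℂ) * (7 * z) = 7 * c' * z by ring]
  norm_num
  ring

/-- `6 Θ₂` -/
noncomputable def W2 : ℍ → ℂ := V 2 E2 + (-1 : ℂ) • E2

lemma mf_W2 : MF 2 W2 := by
  refine ⟨fun γ hγ => ?_, ?_, fun γ => ?_⟩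
  · unfold W2
    rw [SlashAction.add_slash, SL_smul_slash]
    obtain ⟨γ', h1, h2, e⟩ := V_slash 2 E2 hγ
    rw [e, E2_slash_action, E2_slash_action]
    have e1 : V 2 (E2 - (1 / (2 * riemannZeta 2)) • D2 γ') =
        V 2 E2 - (1 / (2 * riemannZeta 2)) • V 2 (D2 γ') := by
      funext z
      simp only [V_apply, Pi.sub_apply, Pi.smul_apply, smul_eq_mul]
      ring
    rw [e1, V_D2 h1 h2]
    funext z
    simp only [Pi.add_apply, Pi.sub_apply, Pi.smul_apply, smul_eq_mul]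
    ring
  · exact (V_mdiff 2 E2_mdifferentiable).add (E2_mdifferentiable.const_smul _)
  · unfold W2
    rw [SlashAction.add_slash, SL_smul_slash]
    exact (V_bdd 2 E2_bdd γ).add ((E2_bdd γ).const_smul_left _)

/-! ### `q`-expansions -/

/-- `f` has the expansion `p` -/
structure HP (f : ℍ → ℂ) (p : PowerSeries ℂ) : Prop where
  good : Good f
  eq : qExpansion 1 f = p

lemma HP.mul {f g : ℍ → ℂ} {p r : PowerSeries ℂ} (hf : HP f p) (hg : HP g r) : HP (f * g) (p * r) :=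
  ⟨hf.good.mul hg.good, by
    rw [UpperHalfPlane.qExpansion_mul hf.good.an hg.good.an, hf.eq, hg.eq]⟩

lemma good_smul {f : ℍ → ℂ} (hf : Good f) (c : ℂ) : Good (c • f) := by
  refine ⟨?_, hf.hol.const_smul _, hf.bdd.const_smul_left _⟩
  intro w
  have := hf.per w
  simp only [Function.comp_apply, Pi.smul_apply] at this ⊢
  rw [this]

lemma good_add {f g : ℍ → ℂ} (hf : Good f) (hg : Good g) : Good (f + g) := by
  refine ⟨?_, hf.hol.add hg.hol, hf.bdd.add hg.bdd⟩
  intro w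
  have h1 := hf.per w
  have h2 := hg.per w
  simp only [comp_apply, Pi.add_apply] at h1 h2 ⊢
  rw [h1, h2]

lemma HP.smul {f : ℍ → ℂ} {p : PowerSeries ℂ} (hf : HP f p) (c : ℂ) :
    HP (c • f) (PowerSeries.C c * p) :=
  ⟨good_smul hf.good c, by
    rw [UpperHalfPlane.qExpansion_smul hf.good.an, hf.eq, two_smul_eq]⟩

lemma HP.add {f g : ℍ → ℂ} {p r : PowerSeries ℂ} (hf : HP f p) (hg : HP g r) : HP (f + g) (p + r) :=
  ⟨good_add hf.good hg.good, by
    rw [UpperHalfPlane.qExpansion_add hf.good.an hg.good.an, hf.eq, hg.eq]⟩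

open Pool.Agent.V5helper40.FR (subq Th2 Y0 Y1 Y2 JobT2)

lemma hasSum_V {f : ℍ → ℂ} {p : PowerSeries ℂ} (hf : HP f p) (k : ℤ) (τ : ℍ) :
    HasSum (fun m : ℕ => (PowerSeries.C ((7 : ℂ) ^ (k - 1)) * subq 7 p).coeff m •
      Function.Periodic.qParam 1 τ ^ m) (V k f τ) := by
  rw [V_apply]
  have him : 0 < (7 * (τ : ℂ)).im := by
    have := τ.im_pos
    simp
    exact this
  have h1 := hasSum_qExpansion one_pos hf.good.per hf.good.hol hf.good.bdd
    (ofComplex (7 * (τ : ℂ)))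
  rw [hf.eq, ofComplex_apply_of_im_pos him] at h1
  have h2 : Function.Periodic.qParam 1 ((⟨7 * (τ : ℂ), him⟩ : ℍ) : ℂ) =
      Function.Periodic.qParam 1 τ ^ 7 := by
    unfold Function.Periodic.qParam
    rw [← Complex.exp_nat_mul]
    congr 1
    push_cast
    show 2 * (Real.pi : ℂ) * Complex.I * (7 * (τ : ℂ)) / 1 = _
    ring
  rw [h2] at h1
  rw [ofComplex_apply_of_im_pos him]
  have h3 := h1.mul_left ((7 : ℂ) ^ (k - 1))
  have hinj : Function.Injective (fun n : ℕ => 7 * n) := fun a b hab =>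
    Nat.eq_of_mul_eq_mul_left (by norm_num) hab
  rw [← Function.Injective.hasSum_iff hinj]
  · refine h3.congr_fun fun m => ?_
    simp only [Function.comp_apply, smul_eq_mul]
    rw [PowerSeries.coeff_C_mul]
    unfold subq
    rw [PowerSeries.coeff_mk, if_pos (dvd_mul_right 7 m), Nat.mul_div_cancel_left _ (by norm_num),
      ← pow_mul]
    ring
  · intro m hm
    rw [PowerSeries.coeff_C_mul]
    unfold subq
    rw [PowerSeries.coeff_mk, if_neg, mul_zero, zero_smul]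
    rintro ⟨n, rfl⟩
    exact hm ⟨n, rfl⟩

lemma HP.V {f : ℍ → ℂ} {p : PowerSeries ℂ} (hf : HP f p) (k : ℤ) :
    HP (V k f) (PowerSeries.C ((7 : ℂ) ^ (k - 1)) * subq 7 p) := by
  have h1 : Good (FR.V k f) := good_of_hasSum (V_mdiff k hf.good.hol)
    (c := fun m => (PowerSeries.C ((7 : ℂ) ^ (k - 1)) * subq 7 p).coeff m) (hasSum_V hf k)
  refine ⟨h1, ?_⟩
  ext n
  exact coeff_unique h1.an (c := fun m => (PowerSeries.C ((7 : ℂ) ^ (k - 1)) * subq 7 p).coeff m)
    (hasSum_V hf k) n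

end Pool.Agent.V5helper91.FR
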